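import Pool.Agent.Helper45.PQ.StA

/-!
# Project PQ, module DGT: corollaries of DEG
-/

set_option autoImplicit false

open Module Classical
open scoped LinearAlgebra.Projectivization

namespace Pool.Agent.Helper14.PQ

open Pool.Agent.Helper45.PQ
open Pool.Agent.Helper53.PB (tt line mem_line)

universe u v

theorem hDGT (h1 : StDEG.{u, v}) : StDGT.{u, v} := by
  intro F _ _ V _ _ _ Q T H m h j c
  have hpp : ∀ P ∈ T, QuadraticMap.polar Q P.rep P.rep = 0 := by
    intro P hP
    rw [polar_self_two, c.sT P hP, mul_zero]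
  have h2 : ∀ P ∈ T, (T.filter (fun X => X ≠ P ∧ QuadraticMap.polar Q P.rep X.rep = 0)).card ≤
      ∑ R ∈ H.filter (fun R => QuadraticMap.polar Q P.rep R.rep = 0), m R := by
    intro P hP
    refine (h1 F V Q T H m h j c P hP
      (T.filter (fun X => X ≠ P ∧ QuadraticMap.polar Q P.rep X.rep = 0)) (Finset.filter_subset _ _)
      (fun X hX => (Finset.mem_filter.1 hX).2)).trans ?_
    apply Finset.sum_le_sum_of_subset
    intro R hR
    rw [Finset.mem_filter] at hR ⊢
    refine ⟨hR.1, ?_⟩
    obtain ⟨X, hX, hRX⟩ := hR.2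
    have hX2 := (Finset.mem_filter.1 hX).2.2
    obtain ⟨a, b, hab⟩ := mem_line.1 hRX
    rw [← hab, QuadraticMap.polar_add_right, QuadraticMap.polar_smul_right,
      QuadraticMap.polar_smul_right, hpp P hP, hX2]
    simp
  have h3 : ∀ P ∈ T, (T.filter (fun X => QuadraticMap.polar Q P.rep X.rep = 0)).card ≤ 1 + j := by
    intro P hP
    have hsub : T.filter (fun X => QuadraticMap.polar Q P.rep X.rep = 0) ⊆
        insert P (T.filter (fun X => X ≠ P ∧ QuadraticMap.polar Q P.rep X.rep = 0)) := by
      intro X hX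
      rw [Finset.mem_filter] at hX
      rw [Finset.mem_insert, Finset.mem_filter]
      by_cases hXP : X = P
      · exact Or.inl hXP
      · exact Or.inr ⟨hX.1, hXP, hX.2⟩
    have hc := (Finset.card_le_card hsub).trans (Finset.card_insert_le _ _)
    have hs : ∑ R ∈ H.filter (fun R => QuadraticMap.polar Q P.rep R.rep = 0), m R ≤ j := by
      rw [← c.ms]
      exact Finset.sum_le_sum_of_subset (Finset.filter_subset _ _)
    have := h2 P hP
    omega
  refine ⟨h3, h2, ?_⟩
  intro E hE
  unfold tt
  by_cases hex : ∃ P ∈ T, P.rep ∈ E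
  · obtain ⟨P, hP, hPE⟩ := hex
    refine le_trans (Finset.card_le_card ?_) (h3 P hP)
    intro X hX
    rw [Finset.mem_filter] at hX ⊢
    exact ⟨hX.1, polar_zero hE hPE hX.2⟩
  · have : T.filter (fun X => X.rep ∈ E) = ∅ := by
      rw [Finset.filter_eq_empty_iff]
      intro X hX hXE
      exact hex ⟨X, hX, hXE⟩
    rw [this, Finset.card_empty]
    exact Nat.zero_le _

end Pool.Agent.Helper14.PQ
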